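import Pool.Agent.H37.CSZ.Stmts

/-!
# Row ZZF of the board `csz`: the elements fixing the place
-/

set_option autoImplicit false

namespace Pool.CND

open Finset Matrix

namespace ZF

section

variable {k F L : Type} [Field k] [Field F] [Field L] [Algebra F k] [Algebra k L]

/-- the order of a nonzero constant -/
theorem cst_ne (P : Place k L) {a : F} (ha : a ≠ 0) :
    cst k F L a ≠ 0 ∧ P.ord (cst k F L a) = 0 := by
  have h1 : algebraMap F k a ≠ 0 := (map_ne_zero_iff _ (algebraMap F k).injective).2 ha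
  exact ⟨(map_ne_zero_iff _ (algebraMap k L).injective).2 h1, P.ord_const _ h1⟩

/-- a constant multiple -/
theorem ge (P : Place k L) (a : F) (z : L) : P.Ge (cst k F L a * z) (P.ord z) := by
  have h5 : P.Ge (cst k F L a * z) (0 + P.ord z) := P.ge_mul (P.ge_const _) (P.ge_ord z)
  rwa [zero_add] at h5

/-- adding terms of larger order to `a z`, `a ≠ 0` -/
theorem add (P : Place k L) {a : F} (ha : a ≠ 0) {z w : L} (hz : z ≠ 0)
    (hw : P.Ge w (P.ord z + 1)) :
    P.ord (cst k F L a * z + w) = P.ord z := by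
  obtain ⟨h1, h2⟩ := cst_ne (L := L) P ha
  have h3 : P.ord (cst k F L a * z) = P.ord z := by rw [P.ord_mul _ _ h1 hz, h2, zero_add]
  have h6 := P.ord_add_of_lt (mul_ne_zero h1 hz) (by rw [h3]; exact hw)
  exact h6.2.trans h3

end

/-- the numbers -/
theorem nums {n q f e : ℕ} (hn : 1 ≤ n) (hf : f = 2 ^ (n + 1)) (hq : q = 2 ^ (2 * n + 1))
    (he : e + f = q + 1) : 1 ≤ e ∧ 4 ≤ f ∧ e * (f + 1) ≤ q ^ 2 := by
  have hf4 : 4 ≤ f := by
    rw [hf]
    calc 4 = 2 ^ 2 := by norm_num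
      _ ≤ 2 ^ (n + 1) := Nat.pow_le_pow_right (by norm_num) (by omega)
  have hfq : f ^ 2 = 2 * q := by
    rw [hf, hq]; ring
  have hlt : f ≤ q := by
    rw [hf, hq]
    exact Nat.pow_le_pow_right (by norm_num) (by omega)
  refine ⟨by omega, hf4, ?_⟩
  have h1 : e * (f + 1) + q = q * f + 1 := by
    have h2 : (e : ℤ) + f = q + 1 := by exact_mod_cast he
    have h3 : (f : ℤ) ^ 2 = 2 * q := by exact_mod_cast hfq
    have h4 : (e : ℤ) * (f + 1) + q = q * f + 1 := by
      linear_combination ((f : ℤ) + 1) * h2 - h3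
    exact_mod_cast h4
  nlinarith

end ZF

open ZF in
theorem zzf_thm (hZZK : S_ZZK) (hINF : S_INF) (hZZB : S_ZZB) : S_ZZF := by
  intro n q f e k F L _ _ _ _ _ _ _ φ t X ρ P hch hn hf hq he hF hφ H
  obtain ⟨he1, hf4, heq⟩ := nums hn hf hq he
  have hq8 : 2 ≤ q := by
    rw [hq]
    calc 2 = 2 ^ 1 := by norm_num
      _ ≤ 2 ^ (2 * n + 1) := Nat.pow_le_pow_right (by norm_num) (by omega)
  have hfinF : Finite F := Nat.finite_of_card_ne_zero (by rw [hF]; omega)
  have hfinM : Finite (Matrix.SpecialLinearGroup (Fin 4) F) := Subtype.finite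
  have hfin : Finite (Sz φ) := inferInstance
  have hcov : IsCover ρ t := hZZK n q f e k F L φ t X ρ P hch hn hf hq he hF hφ H
  obtain ⟨ht0, hX0, hX1, hX2, hX3⟩ := H.ne
  have o0 := H.ord_0
  have o1 := H.ord_1
  have o2 := H.ord_2
  have o3 := H.ord_3
  have heZ : (1 : ℤ) ≤ e := by exact_mod_cast he1
  have hfZ : (4 : ℤ) ≤ f := by exact_mod_cast hf4
  have heqZ : (e : ℤ) * (f + 1) ≤ (q ^ 2 : ℕ) := by exact_mod_cast heq
  have hmul : (e : ℤ) * (f + 1) = e * f + e := by ring
  have hef : (4 : ℤ) ≤ e * f := by nlinarith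
  have l23 : (-1 : ℤ) + 1 ≤ (e : ℤ) - 1 := by omega
  have l12 : (e : ℤ) - 1 + 1 ≤ (e : ℤ) * (f + 1) - 1 := by omega
  have l01 : (e : ℤ) * (f + 1) - 1 + 1 ≤ ((q ^ 2 : ℕ) : ℤ) := by omega
  have c0 : cst k F L 0 = 0 := by simp [cst]
  have a0 : ∀ g : Sz φ, ρ g (X 0) = cst k F L (g.1.1 0 0) * X 0 + cst k F L (g.1.1 1 0) * X 1 +
      cst k F L (g.1.1 2 0) * X 2 + cst k F L (g.1.1 3 0) * X 3 := fun g => by
    rw [H.act_X, Fin.sum_univ_four]
  have g0 : ∀ a : F, P.Ge (cst k F L a * X 0) ((q ^ 2 : ℕ) : ℤ) := fun a => by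
    have := ge P a (X 0)
    rwa [o0] at this
  have g1 : ∀ a : F, P.Ge (cst k F L a * X 1) ((e : ℤ) * (f + 1) - 1) := fun a => by
    have := ge P a (X 1)
    rwa [o1] at this
  have g2 : ∀ a : F, P.Ge (cst k F L a * X 2) ((e : ℤ) - 1) := fun a => by
    have := ge P a (X 2)
    rwa [o2] at this
  -- the elements fixing the place are in the Borel group
  have hsub : ∀ g : Sz φ, Fixes P (ρ g) → g.1.1 1 0 = 0 ∧ g.1.1 2 0 = 0 ∧ g.1.1 3 0 = 0 := by
    intro g hfix
    have h1 := hfix (X 0) hX0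
    have e0 := a0 g
    have h30 : g.1.1 3 0 = 0 := by
      by_contra h30
      rw [e0, add_comm, add P h30 hX3 (by
        rw [o3]
        refine P.ge_add (P.ge_add (P.ge_mono (g0 _) ?_) (P.ge_mono (g1 _) ?_))
          (P.ge_mono (g2 _) ?_) <;> omega), o3, o0] at h1
      omega
    rw [h30, c0, zero_mul, add_zero] at e0
    have h20 : g.1.1 2 0 = 0 := by
      by_contra h20
      rw [e0, add_comm, add P h20 hX2 (by
        rw [o2]
        refine P.ge_add (P.ge_mono (g0 _) ?_) (P.ge_mono (g1 _) ?_) <;> omega), o2, o0] at h1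
      omega
    rw [h20, c0, zero_mul, add_zero] at e0
    refine ⟨?_, h20, h30⟩
    by_contra h10
    rw [e0, add_comm, add P h10 hX1 (by
        rw [o1]
        refine P.ge_mono (g0 _) ?_
        omega), o1, o0] at h1
    omega
  -- the inertia group
  let I : Subgroup (Sz φ) :=
    { carrier := {g | Fixes P (ρ g)}
      one_mem' := by
        show Fixes P (ρ 1)
        rw [map_one]
        exact Fixes.one
      mul_mem' := by
        intro a b ha hb
        show Fixes P (ρ (a * b))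
        rw [map_mul]
        exact Fixes.mul ha hb
      inv_mem' := by
        intro a ha
        show Fixes P (ρ a⁻¹)
        rw [map_inv]
        exact Fixes.inv ha }
  have hI : ∀ g : Sz φ, g ∈ I ↔ Fixes P (ρ g) := fun g => Iff.rfl
  have hI0 : (I : Set (Sz φ)) = ram P ρ 0 := by
    ext g
    constructor
    · intro hg
      have hg' : Fixes P (ρ g) := hg
      refine ⟨hg', fun u hu hu1 => ?_⟩
      have h2 : P.Ge (ρ g u - u) 1 := by
        rw [sub_eq_add_neg]
        refine P.ge_add ?_ (P.ge_neg ?_)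
        · exact Or.inr (by rw [hg' u hu, hu1])
        · exact Or.inr (by rw [hu1])
      rcases h2 with h2 | h2
      · exact Or.inl (sub_eq_zero.1 h2)
      · exact Or.inr (by simpa using h2)
    · intro hg
      exact hg.1
  have hneg : P.ord t < 0 := by
    rw [H.ord_t]
    have : 0 < q ^ 2 * (q - 1) := Nat.mul_pos (Nat.pow_pos (by omega)) (by omega)
    omega
  have hcard : Nat.card I = q ^ 2 * (q - 1) := by
    have h1 := hINF k L (Sz φ) ρ t P I hcov hneg hI0
    rw [H.ord_t] at h1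
    have h2 := neg_injective h1
    exact_mod_cast h2.symm
  have hB := (hZZB n q f F φ hn hf hq hF hφ).2.1
  -- the two sets agree
  have hle : (I : Set (Sz φ)) ⊆ {g : Sz φ | g.1.1 1 0 = 0 ∧ g.1.1 2 0 = 0 ∧ g.1.1 3 0 = 0} :=
    fun g hg => hsub g hg
  have heq2 : (I : Set (Sz φ)) = {g : Sz φ | g.1.1 1 0 = 0 ∧ g.1.1 2 0 = 0 ∧ g.1.1 3 0 = 0} := by
    refine Set.eq_of_subset_of_ncard_le hle ?_ (Set.toFinite _)
    have h3 : ({g : Sz φ | g.1.1 1 0 = 0 ∧ g.1.1 2 0 = 0 ∧ g.1.1 3 0 = 0} : Set (Sz φ)).ncard =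
        q ^ 2 * (q - 1) := hB
    have h4 : (I : Set (Sz φ)).ncard = q ^ 2 * (q - 1) := hcard
    rw [h3, h4]
  intro g
  constructor
  · exact hsub g
  · intro hg
    have h5 : g ∈ (I : Set (Sz φ)) := by
      rw [heq2]
      exact hg
    exact h5

end Pool.CND
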