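import Pool.Agent.H37.CSZ.Stmts

/-!
# Row ZZZ of the board `csz`
-/

set_option autoImplicit false

namespace Pool.CND

theorem zzz_thm (hZZP : S_ZZP) (hZU4 : S_ZU4) : S_ZZZ := by
  intro n q f k F _ _ _ _ φ hch hn hf hq hF hφ
  exact Nat.dvd_antisymm (hZU4 n q f k F φ hch hn hf hq hF hφ) (hZZP n q f k F φ hch hn hf hq hF hφ)

end Pool.CND
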